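import Mathlib
import Pool.Agent.W682.CCb

set_option autoImplicit false

/-! # Every nonzero separable Banach space carries a convex-cyclic operator `S` such that `S ^ 2` is
not convex-cyclic

The operator is `S = ζ (2 + ∑ ε_k g_k ⊗ e_k)` for a fundamental biorthogonal sequence `(e_k, g_k)`,
with `ζ = -1` for real and `ζ = i` for complex scalars, and with a rapidly and strictly decreasing
sequence `ε_k > 0`. -/

namespace Pool.Agent.Results.MP_8292e8_an.SquareNotConvexCyclic

universe u

/-- `T` is convex-cyclic: there is a vector `x` such that the convex hull (real convex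
combinations) of the orbit `x, T x, T² x, …` is dense. -/
def ConvexCyclic {𝕜 : Type} [RCLike 𝕜] {X : Type u} [NormedAddCommGroup X] [NormedSpace 𝕜 X]
    [Module ℝ X] (T : X →L[𝕜] X) : Prop :=
  ∃ x : X, Dense (convexHull ℝ (Set.range fun n : ℕ => (T ^ n) x))

/-- **Every nonzero separable Banach space over `ℝ` or `ℂ` carries a convex-cyclic operator `S`
such that `S ^ 2` is not convex-cyclic.** -/
theorem result :
    (∀ (X : Type u) [NormedAddCommGroup X] [NormedSpace ℝ X] [CompleteSpace X]
      [TopologicalSpace.SeparableSpace X] [Nontrivial X],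
      ∃ S : X →L[ℝ] X, ConvexCyclic S ∧ ¬ ConvexCyclic (S ^ 2)) ∧
    (∀ (X : Type u) [NormedAddCommGroup X] [NormedSpace ℂ X] [CompleteSpace X]
      [TopologicalSpace.SeparableSpace X] [Nontrivial X],
      ∃ S : X →L[ℂ] X, ConvexCyclic S ∧ ¬ ConvexCyclic (S ^ 2)) := by
  refine ⟨?_, ?_⟩
  · intro X _ _ _ _ _
    refine W682.CC.main (𝕜 := ℝ) (X := X) (-1) (by norm_num) ?_ ?_
    · intro a ha
      rcases lt_or_gt_of_ne ha with h | h
      · exact ⟨1, by simp; exact h⟩
      · exact ⟨0, by simp; exact h⟩
    · intro s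
      rcases eq_or_ne s 0 with h | h
      · exact ⟨1, one_ne_zero, fun n => by rw [h]; simp⟩
      · refine ⟨s, h, fun n => ?_⟩
        rw [pow_mul]
        simp
        exact mul_self_nonneg s
  · intro X _ _ _ _ _
    refine W682.CC.main (𝕜 := ℂ) (X := X) Complex.I (by
      rw [show (4 : ℕ) = 2 * 2 from rfl, pow_mul, Complex.I_sq]; norm_num) ?_ ?_
    · intro a ha
      have hI3 : Complex.I ^ 3 = -Complex.I := by
        rw [pow_succ, Complex.I_sq]; ring
      rcases lt_trichotomy a.re 0 with h | h | h
      · exact ⟨2, by rw [Complex.I_sq]; simp; exact h⟩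
      · rcases lt_trichotomy a.im 0 with h' | h' | h'
        · exact ⟨1, by simp; exact h'⟩
        · exact absurd (Complex.ext h h') ha
        · exact ⟨3, by rw [hI3]; simp; exact h'⟩
      · exact ⟨0, by simp; exact h⟩
    · intro s
      rcases eq_or_ne s 0 with h | h
      · exact ⟨1, one_ne_zero, fun n => by rw [h]; simp⟩
      · refine ⟨Complex.I * (starRingEnd ℂ) s, mul_ne_zero Complex.I_ne_zero
          ((map_ne_zero (starRingEnd ℂ)).2 h), fun n => ?_⟩
        have h1 : Complex.I * (starRingEnd ℂ) s * (Complex.I ^ (2 * n) * s) =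
            ((((-1 : ℝ) ^ n * Complex.normSq s : ℝ)) : ℂ) * Complex.I := by
          rw [pow_mul, Complex.I_sq]
          have h2 : (starRingEnd ℂ) s * s = ((Complex.normSq s : ℝ) : ℂ) := by
            rw [mul_comm, Complex.mul_conj]
          push_cast
          linear_combination (Complex.I * (-1) ^ n) * h2
        rw [h1]
        change 0 ≤ ((((-1 : ℝ) ^ n * Complex.normSq s : ℝ) : ℂ) * Complex.I).re
        rw [Complex.re_ofReal_mul, Complex.I_re, mul_zero]

end Pool.Agent.Results.MP_8292e8_an.SquareNotConvexCyclic
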